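import Pool.Agent.Q302.EP.Max

/-!
MP_6a83a4_lc, Q1 (yes): there is a maximal eventually different family of permutations of `ω`
which is closed as a subset of Baire space.
-/

namespace Pool.Agent.Results.MP_6a83a4_lc.ClosedFamily

/-- Q1, positive answer.  `ℕ → ℕ` carries the product topology (Baire space). -/
theorem result :
    ∃ F : Set (ℕ → ℕ), IsClosed F ∧ (∀ f ∈ F, Function.Bijective f) ∧
      (∀ f ∈ F, ∀ g ∈ F, f ≠ g → {n | f n = g n}.Finite) ∧
      ∀ g : ℕ → ℕ, Function.Bijective g → ∃ f ∈ F, {n | f n = g n}.Infinite := by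
  refine ⟨Set.range Pool.Agent.Q302.EP.f, Pool.Agent.Q302.EP.range_closed, ?_, ?_, ?_⟩
  · rintro _ ⟨x, rfl⟩
    exact Pool.Agent.Q302.EP.f_bijective x
  · rintro _ ⟨x, rfl⟩ _ ⟨y, rfl⟩ h
    exact Pool.Agent.Q302.EP.f_different (fun e => h (by rw [e]))
  · intro g hg
    obtain ⟨x, hx⟩ := Pool.Agent.Q302.EP.f_maximal g hg
    exact ⟨_, ⟨x, rfl⟩, hx⟩

end Pool.Agent.Results.MP_6a83a4_lc.ClosedFamily
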